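import Pool.Agent.R603.HCB.Fin
import Pool.Agent.Results.MP_69fea5_lc.EventualClasses

/-!
Hindman's theorem for colourings whose limit space has finite Cantor-Bendixson rank.

The limit space of a colouring `c` of the natural numbers is the compact set of all limits of the
translates of `c` along positive numbers which tend to `0` in the profinite topology. It contains a
recurrent member. If the iterated derived set number `n + 1` of the limit space does not contain
all recurrent members, for example if it is empty, then `c` has a solution of Hindman's theorem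
which is computable in the Turing jump number `2 n + 1` of `c`. So Hindman's theorem for colourings
of finite rank has the strength of arithmetical comprehension over `ω`-models.
-/

set_option autoImplicit false

namespace Pool.Agent.Results.MP_69fea5_lc.CantorBendixson

open Pool.Agent.R603.HCB Pool.Agent.Y545.HM.St
open Pool.Agent.Helper578.JD (jump)

/-- **Hindman's theorem for colourings of finite Cantor-Bendixson rank.** -/
theorem result :
    -- recurrent limits exist
    (∀ (k : ℕ) (c : ℕ → Fin k), ∃ g, Recurrent c g) ∧
    -- a recurrent limit of rank at most `n` gives a solution computable in `2 n + 1` jumps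
    (∀ (A : Set ℕ) (k n : ℕ) (c g : ℕ → Fin k), Computes A (fun m => Part.some (c m).val) →
      Recurrent c g → g ∉ derivedSet^[n + 1] (Limits c) →
        ∃ X, Solution c X ∧ Computes (jump^[2 * n + 1] A) (char X)) ∧
    -- the strength over `ω`-models
    ∀ I : Set (Set ℕ), Ideal I →
      [ACA I,
        HT I (fun _ c => derivedSet (Limits c) = ∅),
        HT I (fun _ c => ∃ n, derivedSet^[n] (Limits c) = ∅),
        HT I (fun _ c => ∃ g n, Recurrent c g ∧ g ∉ derivedSet^[n] (Limits c))].TFAE := by
  have main : ∀ (A : Set ℕ) (k n : ℕ) (c g : ℕ → Fin k),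
      Computes A (fun m => Part.some (c m).val) →
      Recurrent c g → g ∉ derivedSet^[n + 1] (Limits c) →
        ∃ X, Solution c X ∧ Computes (jump^[2 * n + 1] A) (char X) := by
    intro A k n c g hc hg hn
    rw [derivedSet_iter] at hn
    obtain ⟨i, X, ⟨h1, h2, h3⟩, h4, h5⟩ :=
      upper (bridge.1 (show Pool.Agent.Helper446.Oracle.REIn A
        (fun p : ℕ × Fin k => c p.1 = p.2) from computes_col.1 hc)) hg hn
    exact ⟨X, ⟨h1, h2, i, h3⟩, computes_set.2 ⟨bridge.2 h4, bridge.2 h5⟩⟩
  refine ⟨fun k c => exists_recurrent c, main, fun I hI => ?_⟩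
  tfae_have 1 → 4 := by
    rintro hA k c ⟨A, hAI, hc⟩ ⟨g, n, hg, hn⟩
    have hn' : g ∉ derivedSet^[n + 1] (Limits c) := by
      rw [derivedSet_iter] at hn ⊢
      exact fun h => hn (der_iter_anti (cl_limits c) n h)
    obtain ⟨X, hX, hX2⟩ := main A k n c g hc hg hn'
    exact ⟨X, hI.2.1 _ (jump_mem hA hAI _) X hX2, hX⟩
  tfae_have 4 → 3 := by
    rintro h k c hc ⟨n, hn⟩
    obtain ⟨g, hg⟩ := exists_recurrent c
    exact h k c hc ⟨g, n, hg, by rw [hn]; exact Set.notMem_empty g⟩
  tfae_have 3 → 2 := fun h k c hc hn => h k c hc ⟨1, hn⟩
  tfae_have 2 → 1 := by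
    intro h
    refine ((EventualClasses.result.2.2.2 I hI).1).1 ?_
    rintro k c hc ⟨W, hW⟩
    refine h k c hc ?_
    show derivedSet (Limits c) = ∅
    rw [derivedSet_eq]
    exact der_finite (limits_finite hW)
  tfae_finish

end Pool.Agent.Results.MP_69fea5_lc.CantorBendixson
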