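import Pool.Agent.R603.HEP.Win
import Pool.Agent.R603.HEP.Sep
import Pool.Agent.Y545.HM.St

/-!
# Hindman's theorem for colourings by endpoints, windows and states

A colouring is said to be given by ends and states if the colour of `n` depends only on

* the `r` lowest and the `r` highest positions of the nonzero binary digits of `n` (`r` fixed),
* the digits of `n` at the positions below `G l` and at the positions from `H u` on, where `l` and
  `u` are the lowest and the highest position of a nonzero digit, `G` is any function and `H` is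
  any function which tends to infinity, and
* the value of the word of the binary digits of `n` under a homomorphism to a finite monoid (for
  instance, the state of a finite automaton which reads the digits, in either direction).

Hindman's theorem for these colourings is equivalent, by reductions which keep the number of
colours, to the increasing polarized version of Ramsey's theorem for pairs: for every colouring
`f` of the pairs there are infinite sets `U` and `V` such that `f` is constant on the pairs
`a < b` with `a ∈ U` and `b ∈ V`.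

This principle has cone avoidance (by the method of Seetapun, and of Dzhafarov and Jockusch): every
set `C` which is not computable from `Z` is avoided by a countable Turing ideal with the member `Z`
in which Hindman's theorem holds for all colourings given by ends and states. In particular these
colourings do not give arithmetical comprehension, in contrast to the full theorem.
-/

namespace Pool.Agent.Results.MP_69fea5_lc.EndpointColourings

open Pool.Agent.Y545.HM Pool.Agent.Y545.HM.St Pool.Agent.R603.HEP
open Pool.Agent.Helper446 Pool.Agent.Helper446.Oracle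

/-- The colouring `c` is given by ends and states, with windows computable in the ideal `I`: for
some `r`, some functions `G` and `H` in `I`, where `H` tends to infinity, and some homomorphism to
a finite monoid the colour of a number `n` other than `0` depends only on the `r` lowest and the
`r` highest positions of nonzero binary digits, on the digits at the positions below `G l` and at
the positions from `H u` on (`l` and `u` are the lowest and the highest position of a nonzero
digit), and on the value of the word of the binary digits. -/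
def EndState (I : Set (Set ℕ)) (k : ℕ) (c : ℕ → Fin k) : Prop :=
  ∃ (r : ℕ) (G H : ℕ → ℕ) (M : Type) (_ : Monoid M) (_ : Finite M) (φ : ℕ → M),
    (∃ A ∈ I, Computes A fun n => Part.some (G n)) ∧
    (∃ A ∈ I, Computes A fun n => Part.some (H n)) ∧
    (∀ b, ∃ u0, ∀ u, u0 ≤ u → b ≤ H u) ∧ Wins r G H φ c

/-- The colour of a number other than `0` depends only on the lowest and on the highest position
of a nonzero binary digit. -/
def EndPoints (k : ℕ) (c : ℕ → Fin k) : Prop :=
  ∀ m n, m ≠ 0 → n ≠ 0 → m.bitIndices.head? = n.bitIndices.head? →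
    m.bitIndices.getLast? = n.bitIndices.getLast? → c m = c n

/-- The pair `(U, V)` is a solution of the increasing polarized theorem for the colouring `f` of
the pairs of natural numbers. -/
def Polarized {k : ℕ} (f : ℕ → Fin k) (U V : Set ℕ) : Prop :=
  U.Infinite ∧ V.Infinite ∧ ∃ i, ∀ a ∈ U, ∀ b ∈ V, a < b → f (Nat.pair a b) = i

/-- The increasing polarized theorem for pairs holds in `I`. -/
def IPT (I : Set (Set ℕ)) : Prop :=
  ∀ (k : ℕ) (f : ℕ → Fin k), (∃ A ∈ I, Computes A (fun n => Part.some (f n).val)) →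
    ∃ U ∈ I, ∃ V ∈ I, Polarized f U V

theorem endState_of_endPoints {I : Set (Set ℕ)} (hI : Ideal I) {k : ℕ} {c : ℕ → Fin k}
    (h : EndPoints k c) : EndState I k c := by
  obtain ⟨A, hA⟩ := hI.1
  have hid : Computes A fun n => Part.some n := computes_fun.2 (Gr.of_comp Computable.id)
  refine ⟨1, fun n => n, fun n => n, Unit, inferInstance, inferInstance, fun _ => (), ⟨A, hA, hid⟩,
    ⟨A, hA, hid⟩, fun b => ⟨b, fun u hu => hu⟩, fun m n hm hn h1 h2 _ _ _ _ _ =>
    h m n hm hn ?_ ?_⟩
  · have h3 := congrArg List.head? h1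
    simpa [List.head?_take] using h3
  · have h3 := congrArg List.head? h2
    simpa [List.head?_take, List.head?_reverse] using h3

theorem endPoints_ep {k : ℕ} (f : ℕ → Fin k) : EndPoints k (f ∘ ep) := by
  intro m n _ _ h1 h2
  simp only [Function.comp, ep, lo, hi, h1, h2]

/-- The halting problem, as a set of numbers. -/
theorem halting : ∃ K : Set ℕ, REIn ∅ (· ∈ K) ∧ ¬ Dec ∅ K := by
  refine ⟨{n | ((Denumerable.ofNat Nat.Partrec.Code n).eval 0).Dom}, ?_, fun h => ?_⟩
  · refine REIn.of_re ?_
    exact RE.comp (ComputablePred.halting_problem_re 0)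
      (f := fun n : ℕ => Denumerable.ofNat Nat.Partrec.Code n) (Computable.ofNat _)
  · have h1 : ComputablePred fun n : ℕ => ((Denumerable.ofNat Nat.Partrec.Code n).eval 0).Dom :=
      RE.cp_of_re (re_of_empty h.1) (re_of_empty h.2)
    have h2 : ComputablePred fun c : Nat.Partrec.Code =>
        ((Denumerable.ofNat Nat.Partrec.Code (Encodable.encode c)).eval 0).Dom :=
      RE.cp_comp h1 (f := fun c : Nat.Partrec.Code => Encodable.encode c) Computable.encode
    refine ComputablePred.halting_problem 0 ?_
    simpa only [Denumerable.ofNat_encode] using h2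

/-- **Hindman's theorem for colourings by endpoints and states.** -/
theorem result :
    -- from the polarized theorem to Hindman's theorem
    (∀ (M : Type) [Monoid M] [Finite M] (φ : ℕ → M) (r : ℕ), ∃ g : ℕ → ℕ, Primrec g ∧
      ∀ G H : ℕ → ℕ, (∀ b, ∃ u0, ∀ u, u0 ≤ u → b ≤ H u) → ∀ (k : ℕ) (c : ℕ → Fin k),
        Wins r G H φ c → ∀ A, Computes A (fun n => Part.some (G n)) →
        Computes A (fun n => Part.some (H n)) → ∀ U V, Polarized (c ∘ g) U V →
        ∃ X, Solution c X ∧ Computes (Join A (Join U V)) (char X)) ∧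
    -- from Hindman's theorem to the polarized theorem
    (∃ g : ℕ → ℕ, Primrec g ∧ ∀ (k : ℕ) (f : ℕ → Fin k), EndPoints k (f ∘ g) ∧
      ∀ X, Solution (f ∘ g) X → ∃ U V, Polarized f U V ∧ Computes X (char U) ∧
        Computes X (char V)) ∧
    -- the strength over `ω`-models
    (∀ I : Set (Set ℕ), Ideal I → [HT I (EndState I), HT I EndPoints, IPT I].TFAE) ∧
    -- cone avoidance
    (∀ Z C : Set ℕ, ¬ Computes Z (char C) → ∃ I : Set (Set ℕ), Ideal I ∧ I.Countable ∧ Z ∈ I ∧
      C ∉ I ∧ HT I (EndState I)) ∧
    -- the full theorem is strictly stronger over `ω`-models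
    ∃ I : Set (Set ℕ), Ideal I ∧ HT I (EndState I) ∧ ¬ ACA I ∧ ¬ HT I fun _ _ => True := by
  have part1 : ∀ (M : Type) [Monoid M] [Finite M] (φ : ℕ → M) (r : ℕ), ∃ g : ℕ → ℕ, Primrec g ∧
      ∀ G H : ℕ → ℕ, (∀ b, ∃ u0, ∀ u, u0 ≤ u → b ≤ H u) → ∀ (k : ℕ) (c : ℕ → Fin k),
        Wins r G H φ c → ∀ A, Computes A (fun n => Part.some (G n)) →
        Computes A (fun n => Part.some (H n)) → ∀ U V, Polarized (c ∘ g) U V →
        ∃ X, Solution c X ∧ Computes (Join A (Join U V)) (char X) := by
    intro M _ _ φ r
    obtain ⟨g, hg, h⟩ := forwardW φ r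
    refine ⟨g, hg, fun G H hH k c hc A hGA hHA U V ⟨h1, h2, i, h3⟩ => ?_⟩
    obtain ⟨X, hX, hXd⟩ := h G H hH k c hc (join A (join U V)) U V
      ((computes_fun.1 hGA).lift dec_left) ((computes_fun.1 hHA).lift dec_left)
      (dec_left.trans dec_right) (dec_right.trans dec_right) h1 h2 ⟨i, h3⟩
    exact ⟨X, hX, computes_set.2 hXd⟩
  have part3 : ∀ I : Set (Set ℕ), Ideal I → [HT I (EndState I), HT I EndPoints, IPT I].TFAE := by
    intro I hI
    tfae_have 1 → 2 := fun h k c hc hP => h k c hc (endState_of_endPoints hI hP)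
    tfae_have 2 → 3 := by
      rintro h k f ⟨A, hA, hf⟩
      have hfg : Gr A (f ∘ ep) := (computes_col.1 hf).pre pr_ep.to_comp
      obtain ⟨X, hX, hXs⟩ := h k (f ∘ ep) ⟨A, hA, computes_col.2 hfg⟩ (endPoints_ep f)
      obtain ⟨U, V, h1, h2, h3, h4, h5⟩ := backward (f := f) Dec.rfl hXs
      exact ⟨U, hI.2.1 X hX U (computes_set.2 h1), V, hI.2.1 X hX V (computes_set.2 h2),
        h3, h4, h5⟩
    tfae_have 3 → 1 := by
      rintro h k c ⟨A, hA, hc⟩ ⟨r, G, H, M, _, _, φ, ⟨A1, hA1, hG⟩, ⟨A2, hA2, hH⟩, hHinf, hE⟩
      obtain ⟨g, hg, h1⟩ := part1 M φ r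
      have hcg : Gr A (c ∘ g) := (computes_col.1 hc).pre hg.to_comp
      obtain ⟨U, hU, V, hV, hP⟩ := h k (c ∘ g) ⟨A, hA, computes_col.2 hcg⟩
      have hG' : Computes (Join A1 A2) fun n => Part.some (G n) :=
        computes_fun.2 ((computes_fun.1 hG).lift (dec_left (A := A1) (B := A2)))
      have hH' : Computes (Join A1 A2) fun n => Part.some (H n) :=
        computes_fun.2 ((computes_fun.1 hH).lift (dec_right (A := A1) (B := A2)))
      obtain ⟨X, hX, hXc⟩ := h1 G H hHinf k c hE (Join A1 A2) hG' hH' U V hP
      exact ⟨X, hI.2.1 _ (hI.2.2 _ (hI.2.2 A1 hA1 A2 hA2) _ (hI.2.2 U hU V hV)) X hXc, hX⟩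
    tfae_finish
  have part4 : ∀ Z C : Set ℕ, ¬ Computes Z (char C) → ∃ I : Set (Set ℕ), Ideal I ∧ I.Countable ∧
      Z ∈ I ∧ C ∉ I ∧ HT I (EndState I) := by
    intro Z C hC
    obtain ⟨I, h1, h2, h3, h4, h5⟩ := exists_ideal (Z := Z) (C := C) fun h => hC (computes_set.2 h)
    have h6 : Ideal I := ideal_iff.2 h1
    refine ⟨I, h6, h4, h2, h3, ((part3 I h6).out 0 2).2 ?_⟩
    rintro k f ⟨A, hA, hf⟩
    obtain ⟨U, hU, V, hV, h7, h8, h9⟩ := h5 k f ⟨A, hA, computes_col.1 hf⟩
    exact ⟨U, hU, V, hV, h7, h8, h9⟩
  refine ⟨part1, ⟨ep, pr_ep, fun k f => ⟨endPoints_ep f, fun X hX => ?_⟩⟩, part3, part4, ?_⟩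
  · obtain ⟨U, V, h1, h2, h3, h4, h5⟩ := backward (f := f) Dec.rfl hX
    exact ⟨U, V, ⟨h3, h4, h5⟩, computes_set.2 h1, computes_set.2 h2⟩
  · obtain ⟨K, hK1, hK2⟩ := halting
    obtain ⟨I, hI, -, hZ, hK, hHT⟩ := part4 ∅ K fun h => hK2 (computes_set.1 h)
    have hno : ¬ ACA I := fun h => hK (h ∅ hZ K (enum_iff.2 hK1))
    refine ⟨I, hI, hHT, hno, fun h => hno ?_⟩
    rw [ht_iff] at h
    rw [aca_iff]
    exact (class_jump (ideal_iff.1 hI)).2.1 (h.mono fun _ _ _ => trivial)

end Pool.Agent.Results.MP_69fea5_lc.EndpointColourings
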