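import Pool.Agent.R575.TN.Dnc

/-!
# Sums of simple sets get every colour

There is a computable colouring `c` of the natural numbers with infinitely many colours such that
for every infinite set `X` of positive integers which is `Σ⁰₄`, or which computes no function that
is diagonally noncomputable relative to the triple jump `0'''`, the finite sums of `X` get all the
colours. In other words, the lower bounds which hold for Hindman's theorem (`NoSigmaFour` and
`DiagonalOverTripleJump` in this folder) already hold for the weakening of Hindman's theorem in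
which a solution only has to omit a single one of infinitely many colours. (Replacing `c` by
`min c (k - 1)`, the same holds for each finite number `k ≥ 2` of colours; for `k = 2` this is
Hindman's theorem for two colours.) The same holds for the sums of exactly `m` elements, for each
`m ≥ 4`, if the set contains multiples of all powers of `3`.

The colour of `n` is the number of final zeros of the ternary expansion of a number `s`, which is a
sum over all decompositions of `n` into a lower and an upper part (`Pool/Agent/R575/TN/Diag.lean`).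
The upper part `l` decides facts in the limit, and it picks for the requirement `(e, K)` a list of
`3 ^ K` elements `h` in the `e`-th set; by the contributions of the decompositions of `h + l` into
`h` and `l` the numbers `s` for the sums `h + l` represent all residues modulo `3 ^ K`.
-/

namespace Pool.Agent.Results.MP_69fea5_lc.EveryColour

open Pool.Agent.H645R2.HT Pool.Agent.TH747.HS

/-- The characteristic function of a set of natural numbers, as a (total) partial function. -/
noncomputable def char (B : Set ℕ) : ℕ →. ℕ := by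
  classical exact fun n => Part.some (if n ∈ B then 1 else 0)

theorem result (m : ℕ) (hm : 4 ≤ m) :
    ∃ c : ℕ → ℕ, Computable c ∧
      ∀ X : Set ℕ, X.Infinite → 0 ∉ X →
        ((∃ i, ∀ F : Finset ℕ, (F : Set ℕ) ⊆ X → F.Nonempty → c (∑ n ∈ F, n) ≠ i) ∨
          ((∀ N, ∃ x ∈ X, 3 ^ N ∣ x) ∧
            ∃ i, ∀ F : Finset ℕ, (F : Set ℕ) ⊆ X → F.card = m → c (∑ n ∈ F, n) ≠ i)) →
        (∀ R : ℕ → ℕ → ℕ → ℕ → ℕ → Bool,
          Computable (fun x : ℕ × ℕ × ℕ × ℕ × ℕ => R x.1 x.2.1 x.2.2.1 x.2.2.2.1 x.2.2.2.2) →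
          X ≠ {n | ∃ a, ∀ b, ∃ t, ∀ u, R n a b t u = true}) ∧
        ∀ R : ℕ → ℕ → ℕ → ℕ → ℕ → ℕ → Bool,
          Computable (fun x : ℕ × ℕ × ℕ × ℕ × ℕ × ℕ =>
            R x.1 x.2.1 x.2.2.1 x.2.2.2.1 x.2.2.2.2.1 x.2.2.2.2.2) →
          ∃ f : ℕ → ℕ, TuringReducible (fun n => Part.some (f n)) (char X) ∧
            ∀ q, ¬ ∀ v, (∃ a, ∀ b, ∃ t, ∀ u, R q v a b t u = true) ↔ v = f q := by
  obtain ⟨k, rfl⟩ : ∃ k, m = k + 1 := ⟨m - 1, by omega⟩
  have hk : 3 ≤ k := by omega
  refine ⟨Pool.Agent.R575.TN.col (D3k W0 k), Pool.Agent.R575.TN.c_col (c_D3k c_W0 k), ?_⟩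
  rintro X hX h0 (hc | ⟨hd, hc⟩)
  · obtain ⟨V, hV, hY, hV2⟩ := Pool.Agent.R575.TN.hyp_FS hX h0 hc (k := k) (by omega)
    refine ⟨fun R hR hXR => ?_, fun R hR => ?_⟩
    · exact Pool.Agent.R575.TN.no_sigma4 hk hV (zero_notMem_FS h0) hY hV2 (c_RFS hR)
        (FS_sig4 hXR)
    · classical
      obtain ⟨f, hf1, hf2⟩ := Pool.Agent.R575.TN.dnc hk hV (zero_notMem_FS h0) hY hV2 re_FS
        re_not_FS hR
      exact ⟨f, Pool.Agent.Helper446.Oracle.turingReducible_fun_iff.2 hf1, hf2⟩
  · obtain ⟨V, hV, hV2⟩ := Pool.Agent.R575.TN.hyp_eq h0 hd hc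
    refine ⟨fun R hR => Pool.Agent.R575.TN.no_sigma4 hk hV h0 hd hV2 hR, fun R hR => ?_⟩
    classical
    obtain ⟨f, hf1, hf2⟩ := Pool.Agent.R575.TN.dnc hk hV h0 hd hV2
      (Pool.Agent.Helper446.Oracle.REIn.mem Computable.id)
      (Pool.Agent.Helper446.Oracle.REIn.not_mem Computable.id) hR
    exact ⟨f, Pool.Agent.Helper446.Oracle.turingReducible_fun_iff.2 hf1, hf2⟩

end Pool.Agent.Results.MP_69fea5_lc.EveryColour
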