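import Pool.Agent.R455.GP.Thin

/-!
# The thin form of Hindman's theorem is not strongly reducible to the Galvin–Prikry theorem

There are a colouring `c` of the positive integers (with the natural numbers as colours) and an
infinite set `X` such that for every infinite subset `Y` of `X` and every infinite set `Z` of
positive integers computable in `Y`, or in `Y` and any one of countably many given oracles, all
colours occur on the finite sums of elements of `Z`.  Reducing the colours modulo `2` gives a
colouring with two colours such that no infinite subset of `X` computes a solution of Hindman's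
theorem.

Consequently Hindman's theorem, and even its thin form, is not strongly omnisciently computably
reducible to any theorem of Ramsey type for subsets of `ℕ` (a principle each of whose instances has
an infinite solution inside every infinite set): Ramsey's theorem for all exponents and numbers of
colours, the clopen and open Ramsey theorems, and the Galvin–Prikry theorem for Borel families of
infinite sets, although the latter are much stronger than Hindman's theorem in reverse mathematics.
In particular the solutions are not computed by all sufficiently fast growing functions, in contrast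
with the computable colourings, for which every sufficiently fast growing function computes
`0^(ω+1)` and hence a solution.

Proof: the colouring counts blocks of a front which is not decoded by the given functionals.
See `Pool.Agent.H938R3.HT` and `Pool.Agent.R455.GP`.
-/

set_option autoImplicit false

namespace Pool.Agent.Results.MP_69fea5_lc.GalvinPrikry

open Pool.Agent.H938R3.HT Pool.Agent.R455.GP

/-- The characteristic function of a set of natural numbers, as a (total) partial function. -/
noncomputable def char (B : Set ℕ) : ℕ →. ℕ := by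
  classical exact fun n => Part.some (if n ∈ B then 1 else 0)

/-- The join of two sets: `2 n` codes `n ∈ A` and `2 n + 1` codes `n ∈ B`. -/
def join (A B : Set ℕ) : Set ℕ := {n | (n % 2 = 0 ∧ n / 2 ∈ A) ∨ (n % 2 = 1 ∧ n / 2 ∈ B)}

/-- `Z` is a thin solution of Hindman's theorem for the colouring `c` with infinitely many colours:
an infinite set of positive integers such that some colour does not occur on the sums of finitely
many (at least one) distinct elements of `Z`. -/
def Thin (c : ℕ → ℕ) (Z : Set ℕ) : Prop :=
  Z.Infinite ∧ 0 ∉ Z ∧ ∃ v, ∀ F : Finset ℕ, F.Nonempty → (∀ n ∈ F, n ∈ Z) → c (∑ n ∈ F, n) ≠ v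

/-- `Z` is a solution of Hindman's theorem for the colouring `c`: an infinite set of positive
integers such that all sums of finitely many (at least one) distinct elements have one colour. -/
def Solution (c : ℕ → ℕ) (Z : Set ℕ) : Prop :=
  Z.Infinite ∧ 0 ∉ Z ∧ ∃ i, ∀ F : Finset ℕ, F.Nonempty → (∀ n ∈ F, n ∈ Z) → c (∑ n ∈ F, n) = i

/-- `A ⊕ H` computes a thin solution of Hindman's theorem for `c`. -/
def ComputesThin (c : ℕ → ℕ) (A H : Set ℕ) : Prop :=
  ∃ Z, Thin c Z ∧ TuringReducible (char Z) (char (join A H))

theorem join_congr {A Y Y' : Set ℕ} {N : ℕ} (h : ∀ i < N, (i ∈ Y' ↔ i ∈ Y)) :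
    ∀ i < N, (i ∈ join A Y' ↔ i ∈ join A Y) := by
  intro i hi
  have := h (i / 2) (by omega)
  simp only [join, Set.mem_ofPred_eq, this]

theorem lift_char (B : Set ℕ) : ∃ g : ℕ → Bool, (∀ n, g n = true ↔ n ∈ B) ∧
    char B = (PFun.lift (fun n => (g n).toNat) : ℕ →. ℕ) := by
  classical
  refine ⟨fun n => decide (n ∈ B), fun n => by simp, ?_⟩
  funext n
  simp only [char, PFun.lift]
  by_cases h : n ∈ B <;> simp [h]

/-- The core: one colouring and one infinite set. -/
theorem main (A : ℕ → Set ℕ) : ∃ (c : ℕ → ℕ) (X : Set ℕ), X.Infinite ∧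
    ∀ Y ⊆ X, Y.Infinite → ∀ j, ¬ ComputesThin c (A j) Y := by
  classical
  obtain ⟨Φ, hΦ, hΦT⟩ := phi
  let Φ' : ℕ → Set ℕ → ℕ → Bool → Prop := fun e Y n b =>
    Φ e.unpair.1 (join (A e.unpair.2) Y) n b
  have hΦ' : Fun Φ' := by
    refine ⟨fun h h' => hΦ.func h h', ?_⟩
    intro e Y n b h
    obtain ⟨N, hN⟩ := hΦ.cont h
    exact ⟨N, fun Y' hY' => hN _ (join_congr hY')⟩
  obtain ⟨V, hgood, hVs⟩ := v supp_spec pig938 Φ' hΦ'
  obtain ⟨X, hX, c, hc⟩ := coreInf V hgood
  refine ⟨fun n => c (supp n), X, hX, ?_⟩
  rintro Y hYX hYinf j ⟨Z, ⟨hZ, -, v, hv⟩, hT⟩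
  obtain ⟨g, hg, hg'⟩ := lift_char Z
  obtain ⟨h, hh, hh'⟩ := lift_char (join (A j) Y)
  rw [hg', hh'] at hT
  obtain ⟨e, he⟩ := hΦT g h hT
  have hY : {i | h i = true} = join (A j) Y := by
    ext i; exact hh i
  rw [hY] at he
  have hgi : {i | g i = true}.Infinite := by
    have : {i | g i = true} = Z := by ext i; exact hg i
    rw [this]; exact hZ
  obtain ⟨hV1, hV2⟩ := hVs (Nat.pair e j) Y g hgi (fun n => by
    simpa only [Φ', Nat.unpair_pair] using he n)
  obtain ⟨G, hG, hGv⟩ := hc (Nat.pair e j) Y hYX hYinf hV1 v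
  obtain ⟨s, s1, s2, s3⟩ := fin_chain supp_spec hV2 hG
  apply hv s s1 (fun n hn => (hg n).1 (s2 n hn))
  simp only [← s3]
  exact hGv

open Pool.Agent.H38R3.Ell in
/-- A family of sets which only looks at one number is Ellentuck open. -/
theorem eo_coord (a : ℕ) (U : Set Prop) : EO {z : Set ℕ | (a ∈ z) ∈ U} := by
  classical
  intro z hz hzi
  let u : Finset ℕ := (Finset.range (a + 1)).filter (· ∈ z)
  have hu : ∀ n ∈ u, n ∈ z := fun n hn => (Finset.mem_filter.1 hn).2
  have hn : z ∈ Nb u z := by
    refine ⟨hzi, hu, fun n hn => ?_⟩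
    by_cases h : n < a + 1
    · exact Or.inl (Finset.mem_filter.2 ⟨Finset.mem_range.2 h, hn⟩)
    · refine Or.inr ⟨hn, fun m hm => ?_⟩
      have := Finset.mem_range.1 (Finset.mem_filter.1 hm).1
      omega
  refine ⟨u, hn, fun w hw => ?_⟩
  have h1 : (a ∈ w) = (a ∈ z) := by
    apply propext
    constructor
    · intro h
      rcases hw.2.2 a h with h' | h'
      · exact hu a h'
      · exact h'.1
    · intro h
      exact hw.2.1 a (Finset.mem_filter.2 ⟨Finset.mem_range.2 (by omega), h⟩)
  show (a ∈ w) ∈ U
  rw [h1]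
  exact hz

open Pool.Agent.H38R3.Ell in
/-- Borel sets of sets of natural numbers are completely Ramsey. -/
theorem cr_of_measurable {S : Set (Set ℕ)} (hS : MeasurableSet S) : CR S := by
  let m : MeasurableSpace (Set ℕ) :=
    { MeasurableSet' := CR
      measurableSet_empty := EO.cr (fun z hz => absurd hz (Set.notMem_empty z))
      measurableSet_compl := fun _ h => h.compl
      measurableSet_iUnion := fun _ h => CR.iUnion h }
  have hle : (Set.instMeasurableSpace : MeasurableSpace (Set ℕ)) ≤ m := by
    refine iSup_le fun a => ?_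
    rintro T ⟨U, -, rfl⟩
    exact (eo_coord a U).cr
  exact hle S hS

/-- For every sequence of oracles `A j` there are a colouring `c` and an infinite set `X` with:
no infinite subset of `X`, together with one of the oracles, computes a thin solution of Hindman's
theorem for `c`; the same for some solution of every principle of Ramsey type, for some homogeneous
set of every Borel family of sets, and for some functions growing as fast as desired. Solutions of
Hindman's theorem for the two-colouring `c mod 2` are thin solutions for `c`. -/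
theorem result (A : ℕ → Set ℕ) :
    ∃ (c : ℕ → ℕ) (X : Set ℕ), X.Infinite ∧
      -- no infinite subset of `X` computes a solution
      (∀ Y ⊆ X, Y.Infinite → ∀ j, ¬ ComputesThin c (A j) Y) ∧
      -- principles of Ramsey type
      (∀ P : Set ℕ → Prop, (∀ W : Set ℕ, W.Infinite → ∃ H ⊆ W, H.Infinite ∧ P H) →
        ∃ H, H.Infinite ∧ P H ∧ ∀ j, ¬ ComputesThin c (A j) H) ∧
      -- the Galvin–Prikry theorem
      (∀ S : Set (Set ℕ), MeasurableSet S →
        ∃ H, H.Infinite ∧ ((∀ Z ⊆ H, Z.Infinite → Z ∈ S) ∨ ∀ Z ⊆ H, Z.Infinite → Z ∉ S) ∧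
          ∀ j, ¬ ComputesThin c (A j) H) ∧
      -- fast growing functions
      (∀ f : ℕ → ℕ, ∃ g : ℕ → ℕ, StrictMono g ∧ (∀ n, f n ≤ g n) ∧
        ∀ j, ¬ ComputesThin c (A j) (Set.range g)) ∧
      -- two colours
      ∀ Z : Set ℕ, Solution (fun n => c n % 2) Z → Thin c Z := by
  obtain ⟨c, X, hX, hc⟩ := main A
  refine ⟨c, X, hX, hc, ?_, ?_, ?_, ?_⟩
  · intro P hP
    obtain ⟨H, h1, h2, h3⟩ := hP X hX
    exact ⟨H, h2, h3, hc H h1 h2⟩
  · intro S hS
    obtain ⟨H, h1, h2, h3⟩ := cr_of_measurable hS ∅ X hX
    refine ⟨H, h2, ?_, hc H h1 h2⟩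
    have key : ∀ Z ⊆ H, Z.Infinite → Z ∈ Pool.Agent.H38R3.Ell.Nb ∅ H := by
      intro Z hZ hZi
      refine ⟨hZi, fun n hn => absurd hn (Finset.notMem_empty n), fun n hn => Or.inr ?_⟩
      exact ⟨hZ hn, fun m hm => absurd hm (Finset.notMem_empty m)⟩
    rcases h3 with h3 | h3
    · exact Or.inl fun Z hZ hZi => h3 Z (key Z hZ hZi)
    · exact Or.inr fun Z hZ hZi => h3 Z (key Z hZ hZi)
  · intro f
    have h1 : ∀ n k : ℕ, ∃ x ∈ X, n < x ∧ k ≤ x := by
      intro n k
      obtain ⟨x, hx, hx'⟩ := hX.exists_gt (max n k)
      exact ⟨x, hx, lt_of_le_of_lt (le_max_left _ _) hx', (le_max_right n k).trans hx'.le⟩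
    choose! φ hφ1 hφ2 hφ3 using h1
    let g : ℕ → ℕ := fun n => Nat.rec (φ 0 (f 0)) (fun n y => φ y (f (n + 1))) n
    have hg : ∀ n, g n ∈ X := by
      intro n
      cases n with
      | zero => exact hφ1 _ _
      | succ n => exact hφ1 _ _
    have hm : StrictMono g := strictMono_nat_of_lt_succ fun n => hφ2 _ _
    refine ⟨g, hm, fun n => ?_, hc _ ?_ (Set.infinite_range_of_injective hm.injective)⟩
    · cases n with
      | zero => exact hφ3 _ _
      | succ n => exact hφ3 _ _
    · rintro _ ⟨n, rfl⟩
      exact hg n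
  · rintro Z ⟨h1, h2, i, hi⟩
    refine ⟨h1, h2, i + 1, fun F hF hFZ h => ?_⟩
    have h3 := hi F hF hFZ
    have h4 : c (∑ n ∈ F, n) % 2 = i := h3
    omega

end Pool.Agent.Results.MP_69fea5_lc.GalvinPrikry
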